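import Pool.Agent.Helper268.Cfd10

set_option autoImplicit false

/-!
For `A = (z⁴+6z³+12z²+6z)/(4z+3)` and `B = z³/(z+1)²` every field `ℂ(A^n) ∩ ℂ(B)` contains a
non-constant function, `A` is non-special, and `B` is not a compositional right factor of
`X ∘ A^l` for any Galois covering `X` and any `l ≥ 0`.
-/

namespace Pool.Agent.Results.MP_cfd281_an.ExplicitPair

open RatFunc

/-- the field `ℂ(G) = {U ∘ G : U ∈ ℂ(z)}` -/
noncomputable def fieldOf (G : RatFunc ℂ) : IntermediateField ℂ (RatFunc ℂ) :=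
  IntermediateField.adjoin ℂ ({G} : Set (RatFunc ℂ))

/-- the degree of a rational function, `[ℂ(z) : ℂ(G)]` -/
noncomputable def degree (G : RatFunc ℂ) : ℕ := Module.finrank (fieldOf G) (RatFunc ℂ)

/-- `φ` is the substitution `G ↦ G ∘ A` -/
def IsSubstitution (φ : RatFunc ℂ →ₐ[ℂ] RatFunc ℂ) (A : RatFunc ℂ) : Prop := φ RatFunc.X = A

/-- the rational function with substitution `φ` is a Lattès map: there are an elliptic curve `W`, a
non-constant map `θ : W → ℙ¹` and an endomorphism `L` of the curve with `A ∘ θ = θ ∘ L` (in terms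
of function fields) -/
def Lattes (φ : RatFunc ℂ →ₐ[ℂ] RatFunc ℂ) : Prop :=
  ∃ W : WeierstrassCurve ℂ, W.IsElliptic ∧
    ∃ (θ : RatFunc ℂ →ₐ[ℂ] W.toAffine.FunctionField)
      (L : W.toAffine.FunctionField →ₐ[ℂ] W.toAffine.FunctionField), L.comp θ = θ.comp φ

/-- the rational function with substitution `φ` is Möbius conjugate to `z ^ n` (`n` an integer) or to
`± T_n` -/
def PowerOrChebyshev (φ : RatFunc ℂ →ₐ[ℂ] RatFunc ℂ) : Prop :=
  ∃ (σ : RatFunc ℂ ≃ₐ[ℂ] RatFunc ℂ) (ψ : RatFunc ℂ →ₐ[ℂ] RatFunc ℂ),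
    σ.toAlgHom.comp φ = ψ.comp σ.toAlgHom ∧
    ((∃ n : ℤ, ψ RatFunc.X = RatFunc.X ^ n) ∨
     (∃ (n : ℤ) (s : ℂ), s ^ 2 = 1 ∧ ψ RatFunc.X = algebraMap ℂ (RatFunc ℂ) s *
        algebraMap (Polynomial ℂ) (RatFunc ℂ) (Polynomial.Chebyshev.T ℂ n)))

/-- the counterexample function -/
noncomputable def A : RatFunc ℂ :=
  (X ^ 4 + 6 * X ^ 3 + 12 * X ^ 2 + 6 * X) / (4 * X + 3)

/-- the function which is never a right factor -/
noncomputable def B : RatFunc ℂ := X ^ 3 / (X + 1) ^ 2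

/-- `A` and `B` have degree at least two, `A` is non-special, `B ∘ A = F ∘ B` for
`F = z(z+6)³/(4z+27)`, all fields `ℂ(A^n) ∩ ℂ(B)` contain a non-constant function, and for every
Galois covering `P` and every `l` the function `P ∘ A^l` does not lie in `ℂ(B)`. -/
theorem result :
    ∃ φ : RatFunc ℂ →ₐ[ℂ] RatFunc ℂ, IsSubstitution φ A ∧
      2 ≤ degree A ∧ 2 ≤ degree B ∧ ¬ Lattes φ ∧ ¬ PowerOrChebyshev φ ∧
      φ B = B * (B + 6) ^ 3 / (4 * B + 27) ∧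
      (∀ n : ℕ, ∃ g : RatFunc ℂ, g ∈ fieldOf ((⇑φ)^[n] RatFunc.X) ∧ g ∈ fieldOf B ∧
        g ∉ (⊥ : IntermediateField ℂ (RatFunc ℂ))) ∧
      ∀ P : RatFunc ℂ, IsGalois (fieldOf P) (RatFunc ℂ) → ∀ l : ℕ, (⇑φ)^[l] P ∉ fieldOf B := by
  have hA : A = Pool.Agent.Helper268.Cfd.Af := by
    have h6 : algebraMap (Polynomial ℂ) (RatFunc ℂ) 6 = 6 := map_ofNat _ 6
    have h12 : algebraMap (Polynomial ℂ) (RatFunc ℂ) 12 = 12 := map_ofNat _ 12
    have h4 : algebraMap (Polynomial ℂ) (RatFunc ℂ) 4 = 4 := map_ofNat _ 4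
    have h3 : algebraMap (Polynomial ℂ) (RatFunc ℂ) 3 = 3 := map_ofNat _ 3
    unfold A Pool.Agent.Helper268.Cfd.Af Pool.Agent.Helper268.Cfd.Np Pool.Agent.Helper268.Cfd.Qp
    simp only [map_add, map_mul, map_pow, RatFunc.algebraMap_X, h6, h12, h4, h3]
  have hB : B = Pool.Agent.Helper268.Cfd.Bf := by
    unfold B Pool.Agent.Helper268.Cfd.Bf
    simp
  obtain ⟨φ, hφ⟩ := Pool.Agent.Helper268.Cfd.exists_subst Pool.Agent.Helper268.Cfd.Af
    (Pool.Agent.Helper268.Cfd.trans_of_ne_const Pool.Agent.Helper268.Cfd.Af_ne_const)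
  have hns := Pool.Agent.Helper268.Cfd.nonspecial φ hφ
  rw [hA, hB]
  refine ⟨φ, hφ, Pool.Agent.Helper268.Cfd.finrank_A, Pool.Agent.Helper268.Cfd.finrank_B,
    fun h => hns (Or.inl h), fun h => hns (Or.inr h), Pool.Agent.Helper268.Cfd.semiconj φ hφ,
    fun n => Pool.Agent.Helper268.Cfd.cond_i φ hφ n,
    fun P hP l hl => Pool.Agent.Helper268.Cfd.cond_ii_false φ hφ P hP l hl⟩

end Pool.Agent.Results.MP_cfd281_an.ExplicitPair
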